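import Pool.Agent.H93.CT.Core

/-!
The definitions used in the statement of the consistency theorem about almost disjoint families:
almost disjoint families, the space `Ψ(A)`, selectively (a) families, dominating families,
comparison of cardinalities, all inside a structure `M` for the membership relation. The letter
`o` always stands for the set of natural numbers.
-/

namespace SW

section
variable {M : Type} [SetStr M]

/-- `x` is an infinite subset of `o` -/
def IsInfiniteSubset (o x : M) : Prop := Incl x o ∧ ∀ n, E n o → ∃ m, E m x ∧ E n m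

/-- `A` is an almost disjoint family: a set of infinite subsets of `o`, and for distinct members
`x`, `y` of `A` the intersection is finite (it is contained in some natural number `n`, which is
the set of all natural numbers below `n`) -/
def IsADFamily (o A : M) : Prop := (∀ x, E x A → IsInfiniteSubset o x) ∧
  ∀ x y, E x A → E y A → x ≠ y → ∃ n, E n o ∧ ∀ m, E m x → E m y → E m n

/-- `x` is a point of the space `Ψ(A)` -/
def IsPsiPoint (o A x : M) : Prop := E x o ∨ E x A

/-- `U` is an open subset of `Ψ(A)`: with a point `a` in `A` it contains all but finitely many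
members of `a` -/
def IsPsiOpen (o A U : M) : Prop := (∀ x, E x U → IsPsiPoint o A x) ∧
  ∀ a, E a A → E a U → ∃ n, E n o ∧ ∀ m, E m a → ¬ E m n → E m U

/-- `S` is a closed discrete subset of `Ψ(A)`: its complement is open, and every point of `S`
has an open neighbourhood which contains no other point of `S` -/
def IsPsiClosedDiscrete (o A S : M) : Prop := (∀ x, E x S → IsPsiPoint o A x) ∧
  (∃ V, IsPsiOpen o A V ∧ ∀ x, E x V ↔ IsPsiPoint o A x ∧ ¬ E x S) ∧
  ∀ x, E x S → ∃ U, IsPsiOpen o A U ∧ E x U ∧ ∀ y, E y U → E y S → y = x

/-- `D` is a dense subset of `Ψ(A)` -/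
def IsPsiDense (o A D : M) : Prop := (∀ x, E x D → IsPsiPoint o A x) ∧
  ∀ U, IsPsiOpen o A U → (∃ x, E x U) → ∃ x, E x U ∧ E x D

/-- `C` is an open cover of `Ψ(A)` -/
def IsPsiCover (o A C : M) : Prop := (∀ U, E U C → IsPsiOpen o A U) ∧
  ∀ x, IsPsiPoint o A x → ∃ U, E U C ∧ E x U

/-- `A` is selectively (a): for every sequence `C` of open covers of `Ψ(A)` and every dense set
`D` there is a sequence `S` of closed discrete subsets of `D` such that every point `x` of `Ψ(A)` is
in the star of the `n`-th set `s` of `S` with respect to the `n`-th cover `c` of `C` for some `n`: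
some `U` in `c` contains `x` and a point of `s` -/
def IsSelectivelyA (o A : M) : Prop := ∀ C D,
  (∀ n, E n o → ∃ c, PairIn n c C ∧ IsPsiCover o A c ∧ ∀ c', PairIn n c' C → c' = c) →
  IsPsiDense o A D →
  ∃ S, (∀ n, E n o → ∃ s, PairIn n s S ∧ Incl s D ∧ IsPsiClosedDiscrete o A s ∧
      ∀ s', PairIn n s' S → s' = s) ∧
    ∀ x, IsPsiPoint o A x → ∃ n s c U, E n o ∧ PairIn n s S ∧ PairIn n c C ∧ E U c ∧ E x U ∧
      ∃ y, E y U ∧ E y s

/-- `f`, `g` are functions from `o` to `o` and `g m ≤ f m` for all but finitely many `m` -/
def EventuallyLe (o g f : M) : Prop := IsFunction g o o ∧ IsFunction f o o ∧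
  ∃ n, E n o ∧ ∀ m x y, E m o → ¬ E m n → PairIn m x g → PairIn m y f → E x y ∨ x = y

/-- `D` is a dominating family of functions from `o` to `o` -/
def IsDominating (o D : M) : Prop := (∀ f, E f D → IsFunction f o o) ∧
  ∀ g, IsFunction g o o → ∃ f, E f D ∧ EventuallyLe o g f

/-- there is an injective function from `x` to `y` -/
def InjectsInto (x y : M) : Prop := ∃ f, (∀ u, E u x → ∃ v, E v y ∧ PairIn u v f) ∧
  (∀ u v v', PairIn u v f → PairIn u v' f → v = v') ∧
  ∀ u u' v, E u x → E u' x → PairIn u v f → PairIn u' v f → u = u'

/-- `𝔡 < 𝔳_ssa` in the structure `M`: there are a dominating family `D` of least cardinality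
(which is `𝔡`) and an almost disjoint family `A` of the same cardinality, all subfamilies of
which are selectively (a). So for every cardinal number `κ ≤ 𝔡` there is an almost disjoint family
of cardinality `κ` which is selectively (a). -/
def DominatingLtVssa (M : Type) [SetStr M] : Prop := ∃ o A D : M, IsOmega o ∧
  IsADFamily o A ∧ IsDominating o D ∧ (∀ D', IsDominating o D' → InjectsInto D D') ∧
  InjectsInto A D ∧ InjectsInto D A ∧ ∀ B, Incl B A → IsSelectivelyA o B

end

end SW
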