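import Pool.Agent.H93.CT.Stmts
import Pool.Agent.H35.DV.Core

/-!
Definitions for project DV: rows and columns, conditions, finite modifications, names, the poset.
-/

set_option linter.unusedVariables false
set_option synthInstance.maxSize 100000

namespace SW.DV

section
variable {M : Type} [SetStr M] [ZF M]

/-! ### components of pairs -/

/-- the first component of a pair -/
noncomputable def fs (z : M) : M := the (fun a => ∃ b : M, z = opair a b)

/-- the second component of a pair -/
noncomputable def sn (z : M) : M := the (fun b => ∃ a : M, z = opair a b)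

theorem fs_df : Fn1 (fun z : M => fs z) := by unfold fs; infer_instance

theorem sn_df : Fn1 (fun z : M => sn z) := by unfold sn; infer_instance

instance {n : ℕ} {t : (Fin n → M) → M} [ht : DfT t] : DfT (fun v => fs (t v)) := fs_df.comp1 ht

instance {n : ℕ} {t : (Fin n → M) → M} [ht : DfT t] : DfT (fun v => sn (t v)) := sn_df.comp1 ht

@[simp] theorem fs_op (a b : M) : fs (opair a b) = a :=
  the_eq ⟨b, rfl⟩ fun z ⟨b', h⟩ => (opair_inj.1 h).1.symm

@[simp] theorem sn_op (a b : M) : sn (opair a b) = b :=
  the_eq ⟨a, rfl⟩ fun z ⟨a', h⟩ => (opair_inj.1 h).2.symm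

/-! ### functions, rows -/

/-- `a` is (the graph of) a function from `om` to `om` -/
def Fo (a : M) : Prop := (∀ z, E z a → ∃ n m, E n om ∧ E m om ∧ z = opair n m) ∧
  (∀ n, E n om → ∃ m, E (opair n m) a) ∧
  ∀ n m m', E (opair n m) a → E (opair n m') a → m = m'

theorem Fo_df : Cl (fun a : M => Fo a) := by unfold Fo; infer_instance

instance {n : ℕ} {t : (Fin n → M) → M} [ht : DfT t] : Df (fun v => Fo (t v)) := Fo_df.comp1 ht

/-- row functions: `a` is a function from `om` to `om`, the value at `j` is at most `j`, and it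
is not zero for `j ≠ 0` -/
def RL (a : M) : Prop := Fo a ∧ ∀ j, E j om → E (app a j) (suc j) ∧ (j ≠ emp → app a j ≠ emp)

theorem RL_df : Cl (fun a : M => RL a) := by unfold RL; infer_instance

instance {n : ℕ} {t : (Fin n → M) → M} [ht : DfT t] : Df (fun v => RL (t v)) := RL_df.comp1 ht

/-- `a` and `b` are eventually different -/
def Evd (a b : M) : Prop := ∃ m, E m om ∧ ∀ j, E j om → Sub m j → app a j ≠ app b j

theorem Evd_df : Cl2 (fun a b : M => Evd a b) := by unfold Evd; infer_instance

instance {n : ℕ} {t s : (Fin n → M) → M} [ht : DfT t] [hs : DfT s] :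
    Df (fun v => Evd (t v) (s v)) := Evd_df.comp2 ht hs

/-! ### columns

A column is a set `s` of pairs `(j, v)` with `v ≤ j`: the value `v` is excluded at `j`. -/

/-- the set of nonzero values which are allowed at `j` -/
noncomputable def Wn (s j : M) : M := sep (suc j) (fun v => v ≠ emp ∧ ¬ E (opair j v) s)

theorem Wn_df : Fn2 (fun s j : M => Wn s j) := by unfold Wn; infer_instance

instance {n : ℕ} {t s : (Fin n → M) → M} [ht : DfT t] [hs : DfT s] :
    DfT (fun v => Wn (t v) (s v)) := Wn_df.comp2 ht hs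

theorem mem_Wn {s j v : M} : E v (Wn s j) ↔ E v (suc j) ∧ v ≠ emp ∧ ¬ E (opair j v) s := by
  unfold Wn; rw [mem_sep' inferInstance]

/-- the members of `s` are pairs `(j, v)`, `v ≤ j` -/
def Wf (s : M) : Prop := ∀ z, E z s → ∃ j v, E j om ∧ E v (suc j) ∧ z = opair j v

theorem Wf_df : Cl (fun a : M => Wf a) := by unfold Wf; infer_instance

instance {n : ℕ} {t : (Fin n → M) → M} [ht : DfT t] : Df (fun v => Wf (t v)) := Wf_df.comp1 ht

/-- the local law at `j`: some value is allowed, and if the value `0` is excluded then only one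
value is allowed -/
def Ll (s j : M) : Prop := (∃ v, E v (suc j) ∧ ¬ E (opair j v) s) ∧
  ∀ v v', E (opair j emp) s → E v (suc j) → E v' (suc j) → ¬ E (opair j v) s →
    ¬ E (opair j v') s → v = v'

theorem Ll_df : Cl2 (fun s j : M => Ll s j) := by unfold Ll; infer_instance

instance {n : ℕ} {t s : (Fin n → M) → M} [ht : DfT t] [hs : DfT s] :
    Df (fun v => Ll (t v) (s v)) := Ll_df.comp2 ht hs

/-- the sets of allowed values are of unbounded size -/
def Bg (s : M) : Prop := ∀ k, E k om → ∃ j, E j om ∧ Sub k j ∧ E k (card (Wn s j))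

theorem Bg_df : Cl (fun a : M => Bg a) := by unfold Bg; infer_instance

instance {n : ℕ} {t : (Fin n → M) → M} [ht : DfT t] : Df (fun v => Bg (t v)) := Bg_df.comp1 ht

/-- `s` is a column -/
def CL (s : M) : Prop := Wf s ∧ (∀ j, E j om → Ll s j) ∧ Bg s

theorem CL_df : Cl (fun a : M => CL a) := by unfold CL; infer_instance

instance {n : ℕ} {t : (Fin n → M) → M} [ht : DfT t] : Df (fun v => CL (t v)) := CL_df.comp1 ht

/-- the row `a` is good for the column `s`: it is allowed infinitely often, and forced only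
finitely often (if the value `0` is excluded at `j` then so is `a j`, for almost all `j`) -/
def Gd (a s : M) : Prop := (∃ m, E m om ∧ ∀ j, E j om → Sub m j → E (opair j emp) s →
    E (opair j (app a j)) s) ∧
  ∀ m, E m om → ∃ j, E j om ∧ Sub m j ∧ ¬ E (opair j (app a j)) s

theorem Gd_df : Cl2 (fun a b : M => Gd a b) := by unfold Gd; infer_instance

instance {n : ℕ} {t s : (Fin n → M) → M} [ht : DfT t] [hs : DfT s] :
    Df (fun v => Gd (t v) (s v)) := Gd_df.comp2 ht hs

/-! ### treating a row in a column -/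

/-- `j` is a possible place for the last hit of the row `f` in the column `s`, beyond `l` -/
def Pl (s f l j : M) : Prop := E j om ∧ E l j ∧ ¬ E (opair j (app f j)) s ∧
  ∀ i, E i om → Sub j i → E (opair i emp) s → E (opair i (app f i)) s

theorem Pl_df : Df (fun v : Fin 4 → M => Pl (v 0) (v 1) (v 2) (v 3)) := by
  unfold Pl; infer_instance

instance {n : ℕ} {t s u x : (Fin n → M) → M} [ht : DfT t] [hs : DfT s] [hu : DfT u]
    [hx : DfT x] : Df (fun v => Pl (t v) (s v) (u v) (x v)) :=
  Pl_df.comp4 (R := fun a b c d => Pl a b c d) ht hs hu hx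

/-- the least such place -/
noncomputable def jz (s f l : M) : M := the (fun j => Pl s f l j ∧ ∀ i, E i j → ¬ Pl s f l i)

theorem jz_df : DfT (fun v : Fin 3 → M => jz (v 0) (v 1) (v 2)) := by unfold jz; infer_instance

instance {n : ℕ} {t s u : (Fin n → M) → M} [ht : DfT t] [hs : DfT s] [hu : DfT u] :
    DfT (fun v => jz (t v) (s v) (u v)) := jz_df.comp3 (f := fun a b c => jz a b c) ht hs hu

/-- the treated column: `f` is forced at the place `jz s f l` and excluded beyond it -/
noncomputable def trc (s f l : M) : M := sep (prod om om) (fun z => E z s ∨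
  (∃ v, E v (suc (jz s f l)) ∧ v ≠ app f (jz s f l) ∧ z = opair (jz s f l) v) ∨
  ∃ j, E j om ∧ E (jz s f l) j ∧ z = opair j (app f j))

theorem trc_df : DfT (fun v : Fin 3 → M => trc (v 0) (v 1) (v 2)) := by unfold trc; infer_instance

instance {n : ℕ} {t s u : (Fin n → M) → M} [ht : DfT t] [hs : DfT s] [hu : DfT u] :
    DfT (fun v => trc (t v) (s v) (u v)) := trc_df.comp3 (f := fun a b c => trc a b c) ht hs hu

/-! ### entries -/

/-- the row `b` of `p` is the function `f`, with the function `c` and the countable set `S` of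
columns for which later rows must be good -/
def Rw (p b f c S : M) : Prop := Et p emp b (opair f (opair c S))

theorem Rw_df : Df (fun v : Fin 5 → M => Rw (v 0) (v 1) (v 2) (v 3) (v 4)) := by
  unfold Rw; infer_instance

instance {n : ℕ} {t s u x y : (Fin n → M) → M} [ht : DfT t] [hs : DfT s] [hu : DfT u]
    [hx : DfT x] [hy : DfT y] : Df (fun v => Rw (t v) (s v) (u v) (x v) (y v)) := by
  unfold Rw; infer_instance

/-- in column `K` of `p` the value `v` is excluded at the position `(n, j)` -/
def Ex (p K n j v : M) : Prop := Et p K n (opair j v)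

theorem Ex_df : Df (fun v : Fin 5 → M => Ex (v 0) (v 1) (v 2) (v 3) (v 4)) := by
  unfold Ex; infer_instance

instance {n : ℕ} {t s u x y : (Fin n → M) → M} [ht : DfT t] [hs : DfT s] [hu : DfT u]
    [hx : DfT x] [hy : DfT y] : Df (fun v => Ex (t v) (s v) (u v) (x v) (y v)) := by
  unfold Ex; infer_instance

/-- part `n` of the column `K` of `p`, as a set of pairs `(j, v)` -/
noncomputable def col (p K n : M) : M := sep (prod om om) (fun z => Et p K n z)

theorem col_df : DfT (fun v : Fin 3 → M => col (v 0) (v 1) (v 2)) := by unfold col; infer_instance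

instance {n : ℕ} {t s u : (Fin n → M) → M} [ht : DfT t] [hs : DfT s] [hu : DfT u] :
    DfT (fun v => col (t v) (s v) (u v)) := col_df.comp3 (f := fun a b c => col a b c) ht hs hu

theorem mem_col {p K n z : M} : E z (col p K n) ↔ E z (prod om om) ∧ Et p K n z := by
  unfold col; rw [mem_sep' inferInstance]

/-- `p` is below `r` up to finitely many entries of columns: all but finitely many entries of
`r` are in `p`, and all its rows are rows of `p` -/
def Ls (p r : M) : Prop := Fnt (diff r p) ∧ ∀ b x, Et r emp b x → Et p emp b x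

theorem Ls_df : Cl2 (fun a b : M => Ls a b) := by unfold Ls; infer_instance

instance {n : ℕ} {t s : (Fin n → M) → M} [ht : DfT t] [hs : DfT s] :
    Df (fun v => Ls (t v) (s v)) := Ls_df.comp2 ht hs

/-- the row `b` is treated in the column `K` of `p`: for some `((b, h), r)` in `K` with `p` below
`r` up to finitely many entries, the row is excluded at almost all positions of each part
of the column, and for infinitely many `n` it is forced at some `(n, j)` with `h n < j` -/
def Tr (p K b : M) : Prop := ∃ h r f c S, Rw p b f c S ∧ E (opair (opair b h) r) K ∧ Ls p r ∧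
  (∀ n, E n om → ∃ m, E m om ∧ ∀ j, E j om → Sub m j → Ex p K n j (app f j)) ∧
  ∀ m, E m om → ∃ n j, E n om ∧ Sub m n ∧ E j om ∧ E (app h n) j ∧ Ex p K n j emp ∧
    ¬ Ex p K n j (app f j)

theorem Tr_df : Cl3 (fun p K b : M => Tr p K b) := by unfold Tr; infer_instance

instance {n : ℕ} {t s u : (Fin n → M) → M} [ht : DfT t] [hs : DfT s] [hu : DfT u] :
    Df (fun v => Tr (t v) (s v) (u v)) := Tr_df.comp3 ht hs hu

/-! ### conditions -/

/-- the shape of `p`: a countable set of entries, in columns `emp` and `K` in `I` -/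
def Shp (w Z I p : M) : Prop := Cb p ∧ ∀ z, E z p → ∃ K b x, (K = emp ∨ E K I) ∧ E b w ∧ E x Z ∧
  z = opair K (opair b x)

theorem Shp_df : Df (fun v : Fin 4 → M => Shp (v 0) (v 1) (v 2) (v 3)) := by
  unfold Shp; infer_instance

instance {n : ℕ} {t s u x : (Fin n → M) → M} [ht : DfT t] [hs : DfT s] [hu : DfT u]
    [hx : DfT x] : Df (fun v => Shp (t v) (s v) (u v) (x v)) :=
  Shp_df.comp4 (R := fun a b c d => Shp a b c d) ht hs hu hx

/-- laws for the rows of `p`; `a` is the set of (indices of) rows: each row is a triple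
`(f, (c, S))` as above, rows are eventually different, and each row is good for the columns in
the sets `S` of earlier rows -/
def RLw (a p : M) : Prop :=
  (∀ b x, Et p emp b x → E b a ∧ ∃ f c S, x = opair f (opair c S) ∧ RL f ∧ Fo c ∧ Cb S ∧
    ∀ s, E s S → CL s) ∧
  (∀ b x x', Et p emp b x → Et p emp b x' → x = x') ∧
  (∀ b, E b a → ∃ x, Et p emp b x) ∧
  ∀ b b' f c S f' c' S', E b' b → Rw p b f c S → Rw p b' f' c' S' →
    Evd f f' ∧ ∀ s, E s S' → Gd f s

theorem RLw_df : Cl2 (fun a b : M => RLw a b) := by unfold RLw; infer_instance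

instance {n : ℕ} {t s : (Fin n → M) → M} [ht : DfT t] [hs : DfT s] :
    Df (fun v => RLw (t v) (s v)) := RLw_df.comp2 ht hs

/-- laws for the column `K` of `p`: its parts are columns, and every row is treated, or good for
all its parts -/
def KLw (K p : M) : Prop :=
  (∀ n z, Et p K n z → E n om ∧ E z (prod om om)) ∧
  (∀ n, E n om → CL (col p K n)) ∧
  ∀ b f c S, Rw p b f c S → Tr p K b ∨ ∀ n, E n om → Gd f (col p K n)

theorem KLw_df : Cl2 (fun a b : M => KLw a b) := by unfold KLw; infer_instance

instance {n : ℕ} {t s : (Fin n → M) → M} [ht : DfT t] [hs : DfT s] :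
    Df (fun v => KLw (t v) (s v)) := KLw_df.comp2 ht hs

/-- `p` is a condition of height `a` over `I` -/
def Cnd (w Z I a p : M) : Prop := (E a w ∨ a = emp) ∧ Shp w Z I p ∧ RLw a p ∧
  ∀ K, E K I → KLw K p

theorem Cnd_df : Df (fun v : Fin 5 → M => Cnd (v 0) (v 1) (v 2) (v 3) (v 4)) := by
  unfold Cnd; infer_instance

instance {n : ℕ} {t s u x y : (Fin n → M) → M} [ht : DfT t] [hs : DfT s] [hu : DfT u]
    [hx : DfT x] [hy : DfT y] : Df (fun v => Cnd (t v) (s v) (u v) (x v) (y v)) := by
  unfold Cnd; infer_instance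

/-- the set of all conditions over `I` -/
noncomputable def PQ (w Z I : M) : M :=
  sep (pow (prod (ins emp I) (prod w Z))) (fun p => ∃ a, Cnd w Z I a p)

theorem PQ_df : DfT (fun v : Fin 3 → M => PQ (v 0) (v 1) (v 2)) := by unfold PQ; infer_instance

instance {n : ℕ} {t s u : (Fin n → M) → M} [ht : DfT t] [hs : DfT s] [hu : DfT u] :
    DfT (fun v => PQ (t v) (s v) (u v)) := PQ_df.comp3 (f := fun a b c => PQ a b c) ht hs hu

theorem mem_PQ {w Z I p : M} : E p (PQ w Z I) ↔ ∃ a, Cnd w Z I a p := by
  unfold PQ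
  rw [mem_sep' inferInstance, mem_pow]
  refine ⟨fun h => h.2, fun h => ⟨fun z hz => ?_, h⟩⟩
  obtain ⟨a, ha⟩ := h
  obtain ⟨K, b, x, hK, hb, hx, rfl⟩ := ha.2.1.2 z hz
  rw [mem_prod]
  refine ⟨?_, ?_⟩
  · rw [mem_ins]; exact hK.symm
  · rw [mem_prod]; exact ⟨hb, hx⟩

/-- the set of nonzero numbers up to `j` has `j` elements -/
theorem card_Wn_emp {j : M} (hj : E j om) : card (Wn emp j) = j := by
  have h0 : ∀ {i : M}, Wn emp (suc i) = ins (suc i) (Wn emp i) := by
    intro i
    refine SW.ext fun v => ?_
    rw [mem_ins, mem_Wn, mem_Wn, mem_suc (x := suc i)]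
    constructor
    · rintro ⟨h | h, h1, h2⟩
      · exact Or.inl ⟨h, h1, not_mem_emp _⟩
      · exact Or.inr h
    · rintro (⟨h, h1, _⟩ | h)
      · exact ⟨Or.inl h, h1, not_mem_emp _⟩
      · exact ⟨Or.inr h, by rw [h]; exact suc_ne_emp _, not_mem_emp _⟩
  refine om_ind (C := fun j : M => card (Wn emp j) = j) inferInstance ?_ ?_ j hj
  · have : Wn (emp : M) emp = emp := eq_emp fun z hz => by
      rw [mem_Wn, mem_suc] at hz
      rcases hz with ⟨h | h, h1, _⟩
      · exact not_mem_emp _ h
      · exact h1 h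
    rw [this]; exact finF.card_emp
  · intro i hi h
    rw [h0, finF.card_ins, h]
    · exact finF.sub (finF.nat (suc_mem_om hi)) fun z hz => (mem_Wn.1 hz).1
    · intro hz
      have h1 := (mem_Wn.1 hz).1
      exact not_mem_self _ h1

/-- the empty column -/
theorem CL_emp : CL (emp : M) := by
  refine ⟨fun z hz => absurd hz (not_mem_emp z), fun j hj => ⟨⟨emp, ?_, not_mem_emp _⟩,
    fun v v' h => absurd h (not_mem_emp _)⟩, fun k hk => ⟨suc k, suc_mem_om hk, ?_, ?_⟩⟩
  · exact emp_mem_ord (Ord_suc (Ord_nat hj)) (suc_ne_emp _)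
  · exact fun z hz => mem_suc.2 (Or.inl hz)
  · rw [card_Wn_emp (suc_mem_om hk)]
    exact mem_suc.2 (Or.inr rfl)

theorem not_et (K b x : M) : ¬ Et emp K b x := fun h => not_mem_emp _ h

theorem col_emp (K n : M) : col emp K n = emp := eq_emp fun z hz => not_et _ _ _ (mem_col.1 hz).2

theorem emp_cnd (w Z I : M) : Cnd w Z I emp emp := by
  refine ⟨Or.inr rfl, ⟨⟨emp, fun y hy => absurd hy (not_mem_emp y),
    fun y _ _ hy => absurd hy (not_mem_emp y)⟩, fun z hz => absurd hz (not_mem_emp z)⟩,
    ⟨fun b x h => absurd h (not_et _ b x), fun b x _ h => absurd h (not_et _ b x),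
      fun b hb => absurd hb (not_mem_emp b), fun b b' f c S f' c' S' _ h => absurd h (not_et _ _ _)⟩,
    fun K hK => ⟨fun n z h => absurd h (not_et _ _ _), fun n hn => ?_,
      fun b f c S h => absurd h (not_et _ _ _)⟩⟩
  rw [col_emp]
  exact CL_emp

theorem emp_PQ (w Z I : M) : E emp (PQ w Z I) := mem_PQ.2 ⟨emp, emp_cnd w Z I⟩

/-- the notion of forcing: conditions over `I`, ordered by reverse inclusion -/
noncomputable def PG (w Z I : M) : FPoset M where
  P := PQ w Z I
  le := fun p q => Sub q p
  one := emp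
  le_df := inferInstance
  one_mem := emp_PQ w Z I
  refl := fun p _ => Sub.refl p
  trans := fun p q r _ _ _ h1 h2 => Sub.trans h2 h1
  le_one := fun p _ z hz => absurd hz (not_mem_emp z)

/-! ### finite modifications -/

/-- the part of `p` at the positions in `e` (positions are triples `(K, (n, j))`) -/
noncomputable def At (e p : M) : M := sep p (fun z => ∃ K n j v,
  z = opair K (opair n (opair j v)) ∧ E (opair K (opair n j)) e)

theorem At_df : Fn2 (fun e p : M => At e p) := by unfold At; infer_instance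

instance {n : ℕ} {t s : (Fin n → M) → M} [ht : DfT t] [hs : DfT s] :
    DfT (fun v => At (t v) (s v)) := At_df.comp2 ht hs

/-- `p` with the entries at the positions in `e` replaced by `s` -/
noncomputable def md (p e s : M) : M := bun (diff p (At e p)) s

theorem md_df : DfT (fun v : Fin 3 → M => md (v 0) (v 1) (v 2)) := by unfold md; infer_instance

instance {n : ℕ} {t s u : (Fin n → M) → M} [ht : DfT t] [hs : DfT s] [hu : DfT u] :
    DfT (fun v => md (t v) (s v) (u v)) := md_df.comp3 (f := fun a b c => md a b c) ht hs hu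

/-- the possible entries at the position `x = (K, (n, j))` -/
noncomputable def en1 (x : M) : M := img (suc (sn (sn x)))
  (fun v => opair (fs x) (opair (fs (sn x)) (opair (sn (sn x)) v)))

theorem en1_df : Fn1 (fun x : M => en1 x) := by unfold en1; infer_instance

instance {n : ℕ} {t : (Fin n → M) → M} [ht : DfT t] : DfT (fun v => en1 (t v)) := en1_df.comp1 ht

/-- the set of possible entries at the positions in `e` -/
noncomputable def En (e : M) : M := sUn (img e (fun x => en1 x))

theorem En_df : Fn1 (fun x : M => En x) := by unfold En; infer_instance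

instance {n : ℕ} {t : (Fin n → M) → M} [ht : DfT t] : DfT (fun v => En (t v)) := En_df.comp1 ht

/-- `e` is a finite set of positions -/
def Eps (I e : M) : Prop := Fnt e ∧ ∀ x, E x e → ∃ K n j, E K I ∧ E n om ∧ E j om ∧
  x = opair K (opair n j)

theorem Eps_df : Cl2 (fun a b : M => Eps a b) := by unfold Eps; infer_instance

instance {n : ℕ} {t s : (Fin n → M) → M} [ht : DfT t] [hs : DfT s] :
    Df (fun v => Eps (t v) (s v)) := Eps_df.comp2 ht hs

/-- the entries in `s` satisfy the local laws at the positions in `e` -/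
def Lc (e s : M) : Prop := Sub s (En e) ∧ ∀ K n j, E (opair K (opair n j)) e →
  (∃ v, E v (suc j) ∧ ¬ Ex s K n j v) ∧
  ∀ v v', Ex s K n j emp → E v (suc j) → E v' (suc j) → ¬ Ex s K n j v → ¬ Ex s K n j v' → v = v'

theorem Lc_df : Cl2 (fun a b : M => Lc a b) := by unfold Lc; infer_instance

instance {n : ℕ} {t s : (Fin n → M) → M} [ht : DfT t] [hs : DfT s] :
    Df (fun v => Lc (t v) (s v)) := Lc_df.comp2 ht hs

/-- the entries in `s` decide the value at each position in `e` -/
def Dc (e s : M) : Prop := Sub s (En e) ∧ ∀ K n j, E (opair K (opair n j)) e →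
  ∃ v, E v (suc j) ∧ ¬ Ex s K n j v ∧ ∀ v', E v' (suc j) → v' ≠ v → Ex s K n j v'

theorem Dc_df : Cl2 (fun a b : M => Dc a b) := by unfold Dc; infer_instance

instance {n : ℕ} {t s : (Fin n → M) → M} [ht : DfT t] [hs : DfT s] :
    Df (fun v => Dc (t v) (s v)) := Dc_df.comp2 ht hs

/-- `p` and `q` have the same entries at the positions in `e` -/
def Sm (e p q : M) : Prop := ∀ K n j v, E (opair K (opair n j)) e → (Ex q K n j v ↔ Ex p K n j v)

theorem Sm_df : Cl3 (fun e p q : M => Sm e p q) := by unfold Sm; infer_instance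

instance {n : ℕ} {t s u : (Fin n → M) → M} [ht : DfT t] [hs : DfT s] [hu : DfT u] :
    Df (fun v => Sm (t v) (s v) (u v)) := Sm_df.comp3 ht hs hu

/-! ### systems of total names -/

/-- the name `K` is total: for every row index `b` every condition has an extension `q` which is,
up to finitely many entries, below some `r` with `((b, h), r)` in `K` -/
def Tot (w Z I K : M) : Prop := ∀ p b, E p (PQ w Z I) → E b w → ∃ q h r, E q (PQ w Z I) ∧
  Sub p q ∧ E (opair (opair b h) r) K ∧ (∀ n, E n om → E (app h n) om) ∧ Ls q r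

theorem Tot_df : Df (fun v : Fin 4 → M => Tot (v 0) (v 1) (v 2) (v 3)) := by
  unfold Tot; infer_instance

instance {n : ℕ} {t s u x : (Fin n → M) → M} [ht : DfT t] [hs : DfT s] [hu : DfT u]
    [hx : DfT x] : Df (fun v => Tot (t v) (s v) (u v) (x v)) :=
  Tot_df.comp4 (R := fun a b c d => Tot a b c d) ht hs hu hx

/-- `I` is a system of total names -/
structure Ns (w Z I : M) : Prop where
  bs : Bs w Z
  emp : ¬ E emp I
  tot : ∀ K, E K I → Tot w Z I K

/-- `I` is the largest system of total names inside `H` -/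
structure Ms (w Z H I : M) : Prop extends Ns w Z I where
  th : Trans H
  clo : ∀ a, Sub a H → Img Z a → E a H
  sub : Sub I H
  sys : Syq w Z I
  max : ∀ K, E K H → Sk w Z I K → Tot w Z I K → E K I

/-- all parts of columns of `p` are in the sets `S` of rows of `p` -/
def Clo (I p : M) : Prop := ∀ K n, E K I → E n om → col p K n = emp ∨
  ∃ b f c S, Rw p b f c S ∧ E (col p K n) S

theorem Clo_df : Cl2 (fun a b : M => Clo a b) := by unfold Clo; infer_instance

instance {n : ℕ} {t s : (Fin n → M) → M} [ht : DfT t] [hs : DfT s] :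
    Df (fun v => Clo (t v) (s v)) := Clo_df.comp2 ht hs

/-- `D` is a sequence of open dense sets of conditions -/
def Odn (w Z I : M) (D : M → M → Prop) : Prop := ∀ k, E k om →
  (∀ p, E p (PQ w Z I) → ∃ q, E q (PQ w Z I) ∧ Sub p q ∧ D k q) ∧
  ∀ q q', E q (PQ w Z I) → E q' (PQ w Z I) → Sub q q' → D k q → D k q'

/-- the state `x = (k, (p, e))` of a fusion -/
def St (w Z I x : M) : Prop := ∃ k p e, E k om ∧ E p (PQ w Z I) ∧ Eps I e ∧
  x = opair k (opair p e)

theorem St_df : Df (fun v : Fin 4 → M => St (v 0) (v 1) (v 2) (v 3)) := by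
  unfold St; infer_instance

instance {n : ℕ} {t s u x : (Fin n → M) → M} [ht : DfT t] [hs : DfT s] [hu : DfT u]
    [hx : DfT x] : Df (fun v => St (t v) (s v) (u v) (x v)) :=
  St_df.comp4 (R := fun a b c d => St a b c d) ht hs hu hx

/-- from the state `(k, (p, e))` to the state `(k + 1, (p', e'))` -/
def Nx (D : M → M → Prop) (x y : M) : Prop := ∃ k p e p' e', x = opair k (opair p e) ∧
  y = opair (suc k) (opair p' e') ∧ Sub p p' ∧ Sm e p p' ∧ Sub e e' ∧
  ∀ s, Dc e s → D k (md p' e s)

theorem Nx_df {D : M → M → Prop} (hD : Cl2 D) : Cl2 (fun x y : M => Nx D x y) := by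
  unfold Nx
  infer_instance

/-- the task `t` is done in the state `x = (k, (p, e))`. Tasks `(emp, (K, b))`: the row `b` is
treated in the column `K`. Tasks `(om, (K, (n, m)))`: the position `(K, (n, m))` is in `e`, and
some position `(K, (n, j))` in `e` with `m ≤ j` allows more than `m` nonzero values -/
def Dn (I t x : M) : Prop := ∀ k p e, x = opair k (opair p e) →
  (∀ K b, t = opair emp (opair K b) → E K I → (∃ y, Et p emp b y) → Tr p K b) ∧
  ∀ K n m, t = opair om (opair K (opair n m)) → E K I → E n om → E m om →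
    E (opair K (opair n m)) e ∧ ∃ j, E j om ∧ Sub m j ∧ E (opair K (opair n j)) e ∧
      E m (card (Wn (col p K n) j))

theorem Dn_df : Cl3 (fun I t x : M => Dn I t x) := by unfold Dn; infer_instance

instance {n : ℕ} {t s u : (Fin n → M) → M} [ht : DfT t] [hs : DfT s] [hu : DfT u] :
    Df (fun v => Dn (t v) (s v) (u v)) := Dn_df.comp3 ht hs hu

end

end SW.DV
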