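import Pool.Agent.H35.DV.Stmts

/-!
Module GRL of project DV: reading a sequence of open dense sets with finitely many possibilities.
-/

set_option linter.unusedVariables false
set_option synthInstance.maxSize 100000

namespace SW.DV

section
variable {M : Type} [SetStr M] [ZF M]

/-- the set of subsets of a finite set is finite -/
theorem grl_pow {x : M} (hx : Fnt x) : Fnt (pow x) := by
  refine finF.ind (fun x : M => Fnt (pow x)) inferInstance ?_ ?_ x hx
  · refine finF.sub (finF.ins (a := (emp : M)) (x := (emp : M)) finF.emp) fun z hz => ?_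
    rw [mem_pow] at hz
    rw [mem_ins]
    exact Or.inr (eq_emp fun u hu => not_mem_emp u (hz u hu))
  · intro x a _ ha ih
    have h1 : Fn1 (fun y : M => ins a y) := inferInstance
    refine finF.sub (finF.bun ih (finF.img (fun y : M => ins a y) h1 ih)) fun z hz => ?_
    rw [mem_pow] at hz
    rw [mem_bun]
    by_cases haz : E a z
    · right
      rw [mem_img' h1]
      refine ⟨diff z (sing a), ?_, ?_⟩
      · rw [mem_pow]
        intro u hu
        rw [mem_diff, mem_sing] at hu
        rcases mem_ins.1 (hz u hu.1) with h | h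
        · exact h
        · exact absurd h hu.2
      · refine SW.ext fun u => ?_
        rw [mem_ins, mem_diff, mem_sing]
        constructor
        · intro hu
          by_cases h : u = a
          · exact Or.inr h
          · exact Or.inl ⟨hu, h⟩
        · rintro (h | rfl)
          · exact h.1
          · exact haz
    · left
      rw [mem_pow]
      intro u hu
      rcases mem_ins.1 (hz u hu) with h | h
      · exact h
      · subst h; exact absurd hu haz

/-- the union of a sequence is monotone -/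
theorem grl_mono {f : M} (hf : ∀ n, E n om → Sub (app f n) (app f (suc n))) {m n : M}
    (hm : E m om) (hn : E n om) (h : Sub m n) : Sub (app f m) (app f n) := by
  have key : ∀ n : M, E n om → ∀ m : M, E m n → Sub (app f m) (app f n) := by
    refine om_ind (C := fun n : M => ∀ m : M, E m n → Sub (app f m) (app f n)) inferInstance ?_ ?_
    · intro m hm
      exact absurd hm (not_mem_emp m)
    · intro n hn ih m hm
      rw [mem_suc] at hm
      rcases hm with hm | rfl
      · exact (ih m hm).trans (hf n hn)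
      · exact hf m hn
  rcases ((Ord_nat hm).sub_iff (Ord_nat hn)).1 h with h | h
  · exact key n hn m h
  · subst h; exact Sub.refl _

/-- the decisions at the positions in `e` by the least allowed values of `r` -/
noncomputable def grl_s (e r : M) : M := sep (En e) (fun z => ∃ K n j v,
  z = opair K (opair n (opair j v)) ∧ (Ex r K n j v ∨ ∃ u, E u v ∧ ¬ Ex r K n j u))

theorem grl_mem_s {e r z : M} : E z (grl_s e r) ↔ E z (En e) ∧ ∃ K n j v,
    z = opair K (opair n (opair j v)) ∧ (Ex r K n j v ∨ ∃ u, E u v ∧ ¬ Ex r K n j u) := by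
  unfold grl_s
  rw [mem_sep' inferInstance]

theorem grl_ex_s {w Z I e r K n j v : M} (hmd : MdFacts w Z I) (he : Eps I e)
    (hx : E (opair K (opair n j)) e) (hv : E v (suc j)) :
    Ex (grl_s e r) K n j v ↔ Ex r K n j v ∨ ∃ u, E u v ∧ ¬ Ex r K n j u := by
  unfold Ex Et
  rw [grl_mem_s]
  constructor
  · rintro ⟨_, K', n', j', v', h, h'⟩
    rw [opair_inj, opair_inj, opair_inj] at h
    obtain ⟨rfl, rfl, rfl, rfl⟩ := h
    exact h'
  · intro h
    exact ⟨(hmd.mem he).2 ⟨K, n, j, v, hx, hv, rfl⟩, K, n, j, v, rfl, h⟩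

theorem grl_dc {w Z I a e r : M} (hcv : CvFacts w Z I) (hmd : MdFacts w Z I) (he : Eps I e)
    (hr : Cnd w Z I a r) : Dc e (grl_s e r) := by
  refine ⟨fun z hz => (grl_mem_s.1 hz).1, fun K n j hx => ?_⟩
  obtain ⟨K', n', j', hK, hn, hj, h⟩ := he.2 _ hx
  rw [opair_inj, opair_inj] at h
  obtain ⟨rfl, rfl, rfl⟩ := h
  have hl := ((hr.2.2.2 K hK).2.1 n hn).2.1 j hj
  obtain ⟨v1, hv1, hv1'⟩ := hl.1
  rw [hcv.colx hr hK] at hv1'
  have ho : Ord (suc j) := Ord_suc (Ord_nat hj)
  obtain ⟨v0, hv0, ⟨h1, h2⟩, h3, _⟩ := ord_min (C := fun v : M => E v (suc j) ∧ ¬ Ex r K n j v)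
    inferInstance (ho.mem hv1) ⟨hv1, hv1'⟩
  refine ⟨v0, h1, ?_, fun v' hv' hne => ?_⟩
  · rw [grl_ex_s hmd he hx h1]
    rintro (h | ⟨u, hu, hu'⟩)
    · exact h2 h
    · exact h3 u hu ⟨ho.trans h1 hu, hu'⟩
  · rw [grl_ex_s hmd he hx hv']
    by_cases h : Ex r K n j v'
    · exact Or.inl h
    · right
      refine ⟨v0, ?_, h2⟩
      rcases (ho.mem hv').tri hv0 with h4 | h4 | h4
      · exact absurd ⟨hv', h⟩ (h3 v' h4)
      · exact absurd h4 hne
      · exact h4

end

/-- GRL -/
theorem dv_grl (hbkl : BKLStmt) (hfse : FSEStmt) (hlim : LIMStmt) (hmdx : MDXStmt)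
    (hmdf : MDFStmt) (hlsx : LSXStmt) (hcvx : CVXStmt) (hcrd : CRDStmt) (hcbt : CBTStmt) :
    GRLStmt := by
  intro M _ _ w Z I p D hns hp hD hO
  have hb := hns.bs
  have hI := hns.emp
  have hmd := hmdx M w Z I hb hI
  have hcv := hcvx M w Z I hb hI
  have hls := hlsx M
  have hcr := hcrd M
  have cb := hcbt M
  have : Cl2 D := hD
  -- the set of states
  obtain ⟨X, hX⟩ : ∃ X : M, ∀ x, E x X ↔ St w Z I x := by
    refine ⟨sep (prod om (prod (PQ w Z I) (pow (prod I (prod om om))))) (fun x => St w Z I x),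
      fun x => ?_⟩
    rw [mem_sep' inferInstance]
    refine ⟨fun h => h.2, fun h => ⟨?_, h⟩⟩
    obtain ⟨k, p, e, hk, hp, he, rfl⟩ := h
    rw [mem_prod, mem_prod, mem_pow]
    refine ⟨hk, hp, fun z hz => ?_⟩
    obtain ⟨K, n, j, hK, hn, hj, rfl⟩ := he.2 z hz
    rw [mem_prod, mem_prod]
    exact ⟨hK, hn, hj⟩
  let tk : M → M := fun x => bun
    (prod (sing emp) (prod (img (fs (sn x)) (fun z : M => fs z))
      (img (fs (sn x)) (fun z : M => fs (sn z)))))
    (prod (sing om) (prod (img (fs (sn x)) (fun z : M => fs z)) (prod om om)))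
  have htk : Fn1 tk := by
    show Fn1 (fun x : M => bun
      (prod (sing emp) (prod (img (fs (sn x)) (fun z : M => fs z))
        (img (fs (sn x)) (fun z : M => fs (sn z)))))
      (prod (sing om) (prod (img (fs (sn x)) (fun z : M => fs z)) (prod om om))))
    infer_instance
  have i1 : Fn1 (fun z : M => fs z) := inferInstance
  have i2 : Fn1 (fun z : M => fs (sn z)) := inferInstance
  have hsing : ∀ a : M, Cb (sing a) := fun a => cb.fin (finF.sub (finF.ins (a := a) finF.emp)
    fun z hz => mem_ins.2 (Or.inr (mem_sing.1 hz)))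
  obtain ⟨f, hf0, hfR, hft⟩ := hbkl M X (opair emp (opair p emp)) (fun x y : M => Nx D x y)
    (fun t x : M => Dn I t x) tk (Nx_df hD) inferInstance htk
    ((hX _).2 ⟨emp, p, emp, emp_mem_om, hp, ⟨finF.emp, fun x hx => absurd hx (not_mem_emp x)⟩,
      rfl⟩)
    (by
      intro x hx
      obtain ⟨k, p, e, hk, hp, he, rfl⟩ := (hX x).1 hx
      obtain ⟨a, ha⟩ := mem_PQ.1 hp
      have hpc : Cb p := ha.2.1.1
      show Cb (bun _ _)
      simp only [sn_op, fs_op]
      exact cb.bun (cb.prod (hsing _) (cb.prod (cb.img _ i1 hpc) (cb.img _ i2 hpc)))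
        (cb.prod (hsing _) (cb.prod (cb.img _ i1 hpc) (cb.prod cb.om cb.om))))
    (by
      intro x hx
      obtain ⟨y, h1, h2, _⟩ := hfse M w Z I D hns hD hO x emp ((hX x).1 hx)
      exact ⟨y, (hX y).2 h1, h2⟩)
    (by
      intro x x' t hx _ _
      obtain ⟨y, h1, h2, h3⟩ := hfse M w Z I D hns hD hO x t ((hX x).1 hx)
      exact ⟨y, (hX y).2 h1, h2, h3⟩)
  -- the two sequences
  obtain ⟨P, hP⟩ : ∃ P : M, ∀ n, E n om → app P n = fs (sn (app f n)) :=
    ⟨gr om (fun n : M => fs (sn (app f n))), fun n hn => app_gr inferInstance hn⟩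
  obtain ⟨Q, hQ⟩ : ∃ Q : M, ∀ n, E n om → app Q n = sn (sn (app f n)) :=
    ⟨gr om (fun n : M => sn (sn (app f n))), fun n hn => app_gr inferInstance hn⟩
  have hfn : ∀ n : M, E n om → app f n = opair n (opair (app P n) (app Q n)) := by
    refine om_ind (C := fun n : M => app f n = opair n (opair (app P n) (app Q n)))
      inferInstance ?_ ?_
    · rw [hP _ emp_mem_om, hQ _ emp_mem_om, hf0]
      simp
    · intro n hn ih
      obtain ⟨k, p', e', p'', e'', h1, h2, _⟩ := (hfR n hn).2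
      rw [ih, opair_inj] at h1
      rw [hP _ (suc_mem_om hn), hQ _ (suc_mem_om hn), h2, ← h1.1]
      simp
  have hst : ∀ n, E n om → E (app P n) (PQ w Z I) ∧ Eps I (app Q n) := by
    intro n hn
    obtain ⟨k, p', e', hk, hp', he', h⟩ := (hX _).1 (hfR n hn).1
    rw [hfn n hn, opair_inj, opair_inj] at h
    obtain ⟨_, rfl, rfl⟩ := h
    exact ⟨hp', he'⟩
  have hnx : ∀ n, E n om → Sub (app P n) (app P (suc n)) ∧
      Sm (app Q n) (app P n) (app P (suc n)) ∧ Sub (app Q n) (app Q (suc n)) ∧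
      ∀ s, Dc (app Q n) s → D n (md (app P (suc n)) (app Q n) s) := by
    intro n hn
    obtain ⟨k, p', e', p'', e'', h1, h2, h3, h4, h5, h6⟩ := (hfR n hn).2
    rw [hfn n hn, opair_inj, opair_inj] at h1
    rw [hfn _ (suc_mem_om hn), opair_inj, opair_inj] at h2
    obtain ⟨rfl, rfl, rfl⟩ := h1
    obtain ⟨_, rfl, rfl⟩ := h2
    exact ⟨h3, h4, h5, h6⟩
  have monP : ∀ {m n : M}, E m om → E n om → Sub m n → Sub (app P m) (app P n) :=
    fun hm hn h => grl_mono (fun n hn => (hnx n hn).1) hm hn h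
  have monQ : ∀ {m n : M}, E m om → E n om → Sub m n → Sub (app Q m) (app Q n) :=
    fun hm hn h => grl_mono (fun n hn => (hnx n hn).2.2.1) hm hn h
  have hP0 : app P emp = p := by rw [hP _ emp_mem_om, hf0]; simp
  -- the tasks
  have hcol : ∀ n K, Col (app P n) K → E K (img (app P n) (fun z : M => fs z)) := by
    rintro n K ⟨b, x, h⟩
    rw [mem_img' i1]
    exact ⟨_, h, by simp⟩
  have ht1 : ∀ n K b, E n om → E K I → Col (app P n) K → (∃ y, Et (app P n) emp b y) →
      ∃ l, E l om ∧ Tr (app P l) K b := by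
    intro n K b hn hK hc hy
    obtain ⟨y, hy⟩ := hy
    obtain ⟨l, hl, hnl, hd⟩ := hft n (opair emp (opair K b)) hn (by
      show E _ (bun _ _)
      rw [mem_bun]
      left
      rw [hfn n hn]
      simp only [sn_op, fs_op]
      rw [mem_prod, mem_prod, mem_sing]
      refine ⟨rfl, hcol n K hc, ?_⟩
      rw [mem_img' i2]
      exact ⟨_, hy, by simp⟩)
    refine ⟨l, hl, (hd l (app P l) (app Q l) (hfn l hl)).1 K b rfl hK ⟨y, ?_⟩⟩
    exact monP hn hl ((Ord_nat hl).sub_of_mem hnl) _ hy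
  have ht2 : ∀ n K i m, E n om → E K I → Col (app P n) K → E i om → E m om →
      ∃ l, E l om ∧ E (opair K (opair i m)) (app Q l) ∧ ∃ j, E j om ∧ Sub m j ∧
        E (opair K (opair i j)) (app Q l) ∧ E m (card (Wn (col (app P l) K i) j)) := by
    intro n K i m hn hK hc hi hm
    obtain ⟨l, hl, hnl, hd⟩ := hft n (opair om (opair K (opair i m))) hn (by
      show E _ (bun _ _)
      rw [mem_bun]
      right
      rw [hfn n hn]
      simp only [sn_op, fs_op]
      rw [mem_prod, mem_prod, mem_prod, mem_sing]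
      exact ⟨rfl, hcol n K hc, hi, hm⟩)
    exact ⟨l, hl, (hd l (app P l) (app Q l) (hfn l hl)).2 K i m rfl hK hi hm⟩
  -- the limit
  obtain ⟨hq, hqs⟩ := hlim M w Z I P Q hb hI (fun n hn => ⟨(hst n hn).1, (hst n hn).2,
    (hnx n hn).1, (hnx n hn).2.1, (hnx n hn).2.2.1⟩) ht1 ht2
  obtain ⟨aq, haq⟩ := mem_PQ.1 hq
  have hmq : ∀ {z : M}, E z (uq P) → ∃ n, E n om ∧ E z (app P n) := fun h => mem_uq.1 h
  let Tf : M → M := fun k => img (sep (pow (En (app Q k))) (fun s : M => Dc (app Q k) s))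
    (fun s : M => md (app P (suc k)) (app Q k) s)
  have hTf : Fn1 Tf := by
    show Fn1 (fun k : M => img (sep (pow (En (app Q k))) (fun s : M => Dc (app Q k) s))
      (fun s : M => md (app P (suc k)) (app Q k) s))
    infer_instance
  have hmT : ∀ {k t : M}, E t (Tf k) ↔ ∃ s, Dc (app Q k) s ∧ t = md (app P (suc k)) (app Q k) s := by
    intro k t
    show E t (img _ _) ↔ _
    rw [mem_img' inferInstance]
    constructor
    · rintro ⟨s, hs, rfl⟩
      rw [mem_sep' inferInstance] at hs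
      exact ⟨s, hs.2, rfl⟩
    · rintro ⟨s, hs, rfl⟩
      refine ⟨s, ?_, rfl⟩
      rw [mem_sep' inferInstance, mem_pow]
      exact ⟨hs.1, hs⟩
  -- the common argument for the two covering properties
  have key : ∀ k r, E k om → E r (PQ w Z I) → (∀ z, E z (uq P) → ¬ E z r → ∃ K n j v,
      z = opair K (opair n (opair j v)) ∧ E (opair K (opair n j)) (app Q k)) →
      ∃ t r', E t (Tf k) ∧ E r' (PQ w Z I) ∧ Sub r r' ∧ Sub t r' := by
    intro k r hk hr hd
    obtain ⟨ar, har⟩ := mem_PQ.1 hr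
    have he := (hst k hk).2
    have hdc := grl_dc hcv hmd he har
    refine ⟨md (app P (suc k)) (app Q k) (grl_s (app Q k) r), md r (app Q k) (grl_s (app Q k) r),
      hmT.2 ⟨_, hdc, rfl⟩, mem_PQ.2 ⟨ar, hmdf M w Z I ar r _ _ hb hI har he (hmd.dl hdc)⟩, ?_, ?_⟩
    · intro z hz
      unfold md
      rw [mem_bun, mem_diff]
      by_cases hA : E z (At (app Q k) r)
      · right
        unfold At at hA
        rw [mem_sep' inferInstance] at hA
        obtain ⟨_, K, n, j, v, rfl, hx⟩ := hA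
        obtain ⟨K', n', j', hK, hn, hj, h⟩ := he.2 _ hx
        rw [opair_inj, opair_inj] at h
        obtain ⟨rfl, rfl, rfl⟩ := h
        obtain ⟨_, j', v', hj', hv', h⟩ := hcv.ex har hK (n := n) (z := opair j v) hz
        rw [opair_inj] at h
        obtain ⟨rfl, rfl⟩ := h
        exact (grl_ex_s hmd he hx hv').2 (Or.inl hz)
      · exact Or.inl ⟨hz, hA⟩
    · intro z hz
      unfold md at hz ⊢
      rw [mem_bun, mem_diff] at hz ⊢
      rcases hz with ⟨hz, hA⟩ | hz
      · have hzq : E z (uq P) := (hqs _ (suc_mem_om hk)).1 z hz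
        left
        constructor
        · by_contra h
          obtain ⟨K, n, j, v, rfl, hx⟩ := hd z hzq h
          apply hA
          unfold At
          rw [mem_sep' inferInstance]
          exact ⟨hz, K, n, j, v, rfl, hx⟩
        · intro h
          apply hA
          unfold At at h ⊢
          rw [mem_sep' inferInstance] at h ⊢
          exact ⟨hz, h.2⟩
      · exact Or.inr hz
  refine ⟨uq P, gr om Tf, hq, ?_, ?_, ?_, ?_⟩
  · rw [← hP0]; exact (hqs _ emp_mem_om).1
  · intro k hk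
    rw [app_gr hTf hk]
    refine ⟨finF.img _ inferInstance (finF.sub (grl_pow (hmd.enf (hst k hk).2)) fun s hs => ?_),
      fun t ht => ?_⟩
    · rw [mem_sep' inferInstance] at hs
      exact hs.1
    · obtain ⟨s, hs, rfl⟩ := hmT.1 ht
      obtain ⟨a, ha⟩ := mem_PQ.1 (hst _ (suc_mem_om hk)).1
      refine ⟨mem_PQ.2 ⟨a, hmdf M w Z I a _ _ _ hb hI ha (hst k hk).2 (hmd.dl hs)⟩,
        (hnx k hk).2.2.2 s hs, ?_⟩
      exact hls.mono (hqs _ (suc_mem_om hk)).1 (hmd.ls ha (hst k hk).2 hs.1).2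
  · intro k r hk hr hqr
    rw [app_gr hTf hk]
    exact key k r hk hr fun z hz h => absurd (hqr z hz) h
  · intro r hr hlr
    -- the missing entries have positions in `Q m`
    have hex : ∀ z, E z (diff (uq P) r) → ∃ l K n j v, E l om ∧
        z = opair K (opair n (opair j v)) ∧ E (opair K (opair n j)) (app Q l) := by
      intro z hz
      rw [mem_diff] at hz
      rcases hcv.ent haq hz.1 with ⟨b, x, _, rfl⟩ | ⟨K, n, j, v, hK, hn, hj, hv, rfl⟩
      · exact absurd (hlr.2 b x hz.1) hz.2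
      · obtain ⟨n1, hn1, h1⟩ := hmq hz.1
        obtain ⟨l, hl, h2, _⟩ := ht2 n1 K n j hn1 hK ⟨n, opair j v, h1⟩ hn hj
        exact ⟨l, K, n, j, v, hl, rfl, h2⟩
    have hbd : ∀ x : M, Fnt x → Sub x (diff (uq P) r) → ∃ m, E m om ∧ ∀ z, E z x → ∃ K n j v,
        z = opair K (opair n (opair j v)) ∧ E (opair K (opair n j)) (app Q m) := by
      refine finF.ind (fun x : M => Sub x (diff (uq P) r) → ∃ m : M, E m om ∧ ∀ z : M, E z x →
        ∃ K n j v : M, z = opair K (opair n (opair j v)) ∧ E (opair K (opair n j)) (app Q m))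
        inferInstance ?_ ?_
      · intro _
        exact ⟨emp, emp_mem_om, fun z hz => absurd hz (not_mem_emp z)⟩
      · intro x a _ _ ih hs
        obtain ⟨m, hm, h1⟩ := ih fun z hz => hs z (mem_ins.2 (Or.inl hz))
        obtain ⟨l, K, n, j, v, hl, h2, h3⟩ := hex a (hs a (mem_ins.2 (Or.inr rfl)))
        obtain ⟨h4, h5, h6⟩ := hcr.max hm hl
        refine ⟨bun m l, h4, fun z hz => ?_⟩
        rcases mem_ins.1 hz with hz | rfl
        · obtain ⟨K, n, j, v, h7, h8⟩ := h1 z hz
          exact ⟨K, n, j, v, h7, monQ hm h4 h5 _ h8⟩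
        · exact ⟨K, n, j, v, h2, monQ hl h4 h6 _ h3⟩
    obtain ⟨m, hm, h1⟩ := hbd _ hlr.1 (Sub.refl _)
    refine ⟨m, hm, fun k r1 hk hmk hr1 hrr => ?_⟩
    rw [app_gr hTf hk]
    refine key k r1 hk hr1 fun z hz hz' => ?_
    obtain ⟨K, n, j, v, h2, h3⟩ := h1 z (mem_diff.2 ⟨hz, fun h => hz' (hrr z h)⟩)
    exact ⟨K, n, j, v, h2, monQ hm hk hmk _ h3⟩

end SW.DV
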