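import Pool.Agent.H35.DV.Stmts
import Pool.Agent.H13.MA.TStmts

/-!
Assembly of project DV.
-/

set_option linter.unusedVariables false
set_option synthInstance.maxSize 100000

namespace SW.DV

theorem dvmain (hw0 : W0Stmt) (hacx : ACXStmt) (hmsx : MSXStmt) (hfns : FNSStmt) (heij : EIJStmt)
    (hefo : EFOStmt) (head : EADStmt) (hesa : ESAStmt) (hesz : ESZStmt) : DVMStmt := by
  intro M _ _ _
  obtain ⟨w, hw⟩ := hw0 M
  obtain ⟨Z, H, I, hm⟩ := hmsx M w hw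
  obtain ⟨G, hG, _⟩ := (semF (PG w Z I)).ex (PG w Z I).one (PG w Z I).one_mem
  have hz : ZFC (Ext (PG w Z I) G) := hacx M (PG w Z I) G hG
  have hf := hfns M w Z H I G hm hG
  obtain ⟨e, he⟩ := heij (Ext (PG w Z I) G)
  refine ⟨Ext (PG w Z I) G, inferInstance, hz, emb (PG w Z I) G, valF hG, ?_⟩
  have h1 := head _ _ e _ he hf.rl hf.evd
  have h2 := hesz _ _ e _ _ he hf
  exact ⟨om, AF _ e _, DF _ _, (hefo _).1, h1.1, h2.1, h2.2.1, h2.2.2.1, h2.2.2.2,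
    hesa _ _ e _ he hf.rl hf.evd hf.sel⟩

theorem dvfinal (h : DVMStmt) (hl : LSZStmt) (hz : ZFMStmt) :
    (∀ (M : Type) [SetStr M] [ZFC M] [Countable M],
      ∃ (N : Type) (_ : SetStr N) (_ : ZFC N) (i : M → N), IsGenExt i ∧ DominatingLtVssa N) ∧
    (∀ (M : Type) [SetStr M] [ZFC M],
      ∃ (N : Type) (_ : SetStr N) (_ : ZFC N), DominatingLtVssa N) ∧
    ∃ (N : Type) (_ : SetStr N) (_ : ZFC N), Countable N ∧ DominatingLtVssa N := by
  refine ⟨h, fun M _ _ => ?_, ?_⟩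
  · obtain ⟨M', _, _, hc⟩ := hl M
    obtain ⟨N, _, _, i, _, hN⟩ := h M'
    exact ⟨N, inferInstance, inferInstance, hN⟩
  · obtain ⟨M', _, _, hc⟩ := hz
    obtain ⟨N, _, _, i, hi, hN⟩ := h M'
    exact ⟨N, inferInstance, inferInstance, cnt M' N i hi, hN⟩

end SW.DV
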