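import Pool.Agent.H35.DV.Defs

/-!
Statements of the modules of project DV.
-/

set_option linter.unusedVariables false
set_option synthInstance.maxSize 100000

namespace SW.DV

/-! ## Part B: numbers, columns, rows -/

/-- BKL: bookkeeping. From every state every task (of any state) can be done by one step to a new
state; then there is a sequence of states which does all tasks of its states. -/
def BKLStmt : Prop := ∀ (M : Type) [SetStr M] [ZFC M] (X x0 : M) (R Dn : M → M → Prop)
  (tk : M → M), Cl2 R → Cl2 Dn → Fn1 tk → E x0 X → (∀ x, E x X → Cb (tk x)) →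
  (∀ x, E x X → ∃ y, E y X ∧ R x y) →
  (∀ x x' t, E x X → E x' X → E t (tk x') → ∃ y, E y X ∧ R x y ∧ Dn t y) →
  ∃ f, app f emp = x0 ∧ (∀ n, E n om → E (app f n) X ∧ R (app f n) (app f (suc n))) ∧
    ∀ n t, E n om → E t (tk (app f n)) → ∃ l, E l om ∧ E n l ∧ Dn t (app f l)

/-- CRD: facts about cardinalities of finite sets -/
structure CrFacts (M : Type) [SetStr M] [ZF M] : Prop where
  /-- a finite set with more than `k` elements is not covered by `k` values -/
  pig : ∀ {X k : M} (g : M → M), Fn1 g → Fnt X → E k om → E k (card X) →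
    ∃ v, E v X ∧ ∀ i, E i k → v ≠ g i
  del : ∀ {X a k : M}, Fnt X → E k om → E (suc k) (card X) → E k (card (diff X (sing a)))
  mono : ∀ {X Y k : M}, Fnt X → Sub Y X → E k (card Y) → E k (card X)
  wn : ∀ {s j : M}, E j om → Fnt (Wn s j)
  /-- the maximum of two numbers -/
  max : ∀ {m n : M}, E m om → E n om → E (bun m n) om ∧ Sub m (bun m n) ∧ Sub n (bun m n)
  /-- finite sets of numbers are bounded -/
  bdd : ∀ {x : M}, Fnt x → Sub x om → ∃ m, E m om ∧ ∀ n, E n x → E n m

def CRDStmt : Prop := ∀ (M : Type) [SetStr M] [ZF M], CrFacts M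

/-- CLX: facts about columns and good rows -/
structure ClFacts (M : Type) [SetStr M] [ZF M] : Prop where
  /-- finite changes of columns -/
  fin : ∀ {s s' m : M}, CL s → E m om → Wf s' → (∀ j, E j om → Ll s' j) →
    (∀ j v, E j om → Sub m j → (E (opair j v) s' ↔ E (opair j v) s)) → CL s'
  gfin : ∀ {f s s' m : M}, Gd f s → E m om →
    (∀ j v, E j om → Sub m j → (E (opair j v) s' ↔ E (opair j v) s)) → Gd f s'
  gemp : ∀ {f : M}, Gd f emp
  esym : ∀ {a b : M}, Evd a b → Evd b a

def CLXStmt : Prop := ∀ (M : Type) [SetStr M] [ZF M], ClFacts M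

/-- TRC: treating a row in a column -/
def TRCStmt : Prop := ∀ (M : Type) [SetStr M] [ZF M] (s f l : M), CL s → RL f → Gd f s →
  E l om →
  CL (trc s f l) ∧ Sub s (trc s f l) ∧
  (∀ j v, E j om → Sub j l → (E (opair j v) (trc s f l) ↔ E (opair j v) s)) ∧
  (∃ m, E m om ∧ ∀ j, E j om → Sub m j → E (opair j (app f j)) (trc s f l)) ∧
  (∃ j, E j om ∧ E l j ∧ E (opair j emp) (trc s f l) ∧ ¬ E (opair j (app f j)) (trc s f l)) ∧
  ∀ f', RL f' → Evd f' f → Gd f' s → Gd f' (trc s f l)

/-- ROX: a row function which is eventually different from the members of a countable set of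
row functions, and good for all members of a countable set of columns -/
def ROXStmt : Prop := ∀ (M : Type) [SetStr M] [ZFC M] (A B : M), Cb A → Cb B →
  (∀ a, E a A → RL a) → (∀ s, E s B → CL s) →
  ∃ f, RL f ∧ (∀ a, E a A → Evd f a) ∧ ∀ s, E s B → Gd f s

/-! ## Part P: conditions -/

/-- facts about `Z` -/
structure ZvFacts {M : Type} [SetStr M] [ZF M] (w Z : M) : Prop where
  row : ∀ {f c S : M}, Fo f → Fo c → Cb S → (∀ s, E s S → CL s) →
    E (opair f (opair c S)) Z
  cof : ∀ {f : M}, Fo f → Cb f ∧ E f Z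
  col : ∀ {s : M}, Wf s → Cb s ∧ E s Z
  pos : ∀ {j v : M}, E j om → E v om → E (opair j v) Z

/-- ZVX -/
def ZVXStmt : Prop := ∀ (M : Type) [SetStr M] [ZFC M] (w Z : M), Bs w Z → ZvFacts w Z

/-- CVX: basic facts about conditions -/
structure CvFacts {M : Type} [SetStr M] [ZF M] (w Z I : M) : Prop where
  /-- the height is an element of `w`, an ordinal -/
  ht : ∀ {a p : M}, Cnd w Z I a p → E a w ∧ Ord a
  huniq : ∀ {a b p : M}, Cnd w Z I a p → Cnd w Z I b p → a = b
  /-- larger conditions are higher -/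
  hmono : ∀ {a b p q : M}, Cnd w Z I a p → Cnd w Z I b q → Sub p q → Sub a b
  row : ∀ {a p b : M}, Cnd w Z I a p → E b a → ∃ f c S, Rw p b f c S ∧ RL f ∧ Fo c ∧ Cb S ∧
    ∀ s, E s S → CL s
  rowb : ∀ {a p b x : M}, Cnd w Z I a p → Et p emp b x → E b a
  rowl : ∀ {a p b f c S : M}, Cnd w Z I a p → Rw p b f c S → RL f ∧ Fo c ∧ Cb S ∧
    ∀ s, E s S → CL s
  rowu : ∀ {a p b f c S f' c' S' : M}, Cnd w Z I a p → Rw p b f c S → Rw p b f' c' S' →
    f = f' ∧ c = c' ∧ S = S'
  /-- extensions do not change the rows below the height -/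
  old : ∀ {a p q b x : M}, Cnd w Z I a p → E q (PQ w Z I) → Sub p q → E b a →
    Et q emp b x → Et p emp b x
  /-- entries of columns -/
  ex : ∀ {a p K n z : M}, Cnd w Z I a p → E K I → Et p K n z → E n om ∧
    ∃ j v, E j om ∧ E v (suc j) ∧ z = opair j v
  /-- all entries -/
  ent : ∀ {a p z : M}, Cnd w Z I a p → E z p →
    (∃ b x, E b a ∧ z = opair emp (opair b x)) ∨
    ∃ K n j v, E K I ∧ E n om ∧ E j om ∧ E v (suc j) ∧ z = opair K (opair n (opair j v))
  /-- parts of columns; note that numbers `v ≤ j` are in `om` -/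
  colx : ∀ {a p K n j v : M}, Cnd w Z I a p → E K I →
    (E (opair j v) (col p K n) ↔ Ex p K n j v)
  /-- columns without entries -/
  none : ∀ {p K : M}, ¬ Col p K → ∀ n, col p K n = emp

/-- CVX -/
def CVXStmt : Prop := ∀ (M : Type) [SetStr M] [ZF M] (w Z I : M), Bs w Z → ¬ E emp I →
  CvFacts w Z I

/-- LSX: facts about `Ls` -/
structure LsFacts (M : Type) [SetStr M] [ZF M] : Prop where
  sub : ∀ {p r : M}, Sub r p → Ls p r
  mono : ∀ {p q r : M}, Sub p q → Ls p r → Ls q r
  up : ∀ {p r r' : M}, Sub r r' → Ls p r' → Ls p r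
  trans : ∀ {p q r : M}, Ls p q → Ls q r → Ls p r

def LSXStmt : Prop := ∀ (M : Type) [SetStr M] [ZF M], LsFacts M

/-- TMO: a treated row stays treated in larger sets of entries (which satisfy the local laws) -/
def TMOStmt : Prop := ∀ (M : Type) [SetStr M] [ZF M] (w Z I a p q K b : M), Bs w Z →
  ¬ E emp I → Cnd w Z I a p → E K I → Sub p q →
  (∀ n j, E n om → E j om → Ll (col q K n) j) → Tr p K b → Tr q K b

/-- MDX: facts about modifications -/
structure MdFacts {M : Type} [SetStr M] [ZF M] (w Z I : M) : Prop where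
  enf : ∀ {e : M}, Eps I e → Fnt (En e)
  mem : ∀ {e z : M}, Eps I e → (E z (En e) ↔ ∃ K n j v, E (opair K (opair n j)) e ∧
    E v (suc j) ∧ z = opair K (opair n (opair j v)))
  dl : ∀ {e s : M}, Dc e s → Lc e s
  emp : ∀ {p e s b x : M}, Eps I e → Sub s (En e) →
    (Et (md p e s) emp b x ↔ Et p emp b x)
  inn : ∀ {p e s K n j v : M}, Eps I e → Sub s (En e) → E (opair K (opair n j)) e →
    (Ex (md p e s) K n j v ↔ Ex s K n j v)
  out : ∀ {p e s K n j v : M}, Eps I e → Sub s (En e) → ¬ E (opair K (opair n j)) e →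
    (Ex (md p e s) K n j v ↔ Ex p K n j v)
  at' : ∀ {a p e : M}, Cnd w Z I a p → Eps I e → Lc e (At e p)
  ls : ∀ {a p e s : M}, Cnd w Z I a p → Eps I e → Sub s (En e) →
    Ls (md p e s) p ∧ Ls p (md p e s)

def MDXStmt : Prop := ∀ (M : Type) [SetStr M] [ZF M] (w Z I : M), Bs w Z → ¬ E emp I →
  MdFacts w Z I

/-- MDF: finite modifications of conditions are conditions -/
def MDFStmt : Prop := ∀ (M : Type) [SetStr M] [ZFC M] (w Z I a p e s : M), Bs w Z →
  ¬ E emp I → Cnd w Z I a p → Eps I e → Lc e s → Cnd w Z I a (md p e s)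

/-- BCK: going back to the old entries at the positions in `e` -/
def BCKStmt : Prop := ∀ (M : Type) [SetStr M] [ZFC M] (w Z I a b p q e : M), Bs w Z →
  ¬ E emp I → Cnd w Z I a p → Cnd w Z I b q → Eps I e → Sub (diff p (At e p)) q →
  Cnd w Z I b (md q e (At e p)) ∧ Sub p (md q e (At e p)) ∧ Sm e p (md q e (At e p)) ∧
  Ls (md q e (At e p)) q ∧
  /- if the entries of `q` in `e` decide the values, then replacing them again gives `q` -/
  ∀ s, Dc e s → Sub s q → md (md q e (At e p)) e s = q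

/-- ADR: adding a row -/
def ADRStmt : Prop := ∀ (M : Type) [SetStr M] [ZFC M] (w Z I a p f c S : M), Bs w Z →
  ¬ E emp I → Cnd w Z I a p → RL f → Fo c → Cb S → (∀ s, E s S → CL s) →
  (∀ b f' c' S', Rw p b f' c' S' → Evd f f' ∧ ∀ s, E s S' → Gd f s) →
  (∀ K n, E K I → E n om → Gd f (col p K n)) →
  Cnd w Z I (suc a) (ins (opair emp (opair a (opair f (opair c S)))) p)

/-- EXT: every condition has an extension with one more row, the function `c` in this row is
given -/
def EXTStmt : Prop := ∀ (M : Type) [SetStr M] [ZFC M] (w Z I a p c : M), Bs w Z →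
  ¬ E emp I → Cnd w Z I a p → Fo c →
  ∃ q f S, Cnd w Z I (suc a) q ∧ Sub p q ∧ Rw q a f c S ∧ Clo I q ∧
    ∀ K n z, E K I → (Et q K n z ↔ Et p K n z)

/-- RST: restrictions of conditions to subsystems -/
def RSTStmt : Prop := ∀ (M : Type) [SetStr M] [ZFC M] (w Z I J a p : M), Bs w Z →
  ¬ E emp I → Sub J I → Syq w Z J → Cnd w Z I a p →
  Cnd w Z J a (rj w Z J p) ∧ ∀ b x, Et (rj w Z J p) emp b x ↔ Et p emp b x

/-- AMA: amalgamation -/
def AMAStmt : Prop := ∀ (M : Type) [SetStr M] [ZFC M] (w Z I J a p q : M), Bs w Z →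
  ¬ E emp I → Sub J I → Syq w Z J → Cnd w Z I a p → Clo I p → E q (PQ w Z J) →
  Sub (rj w Z J p) q → E (bun p q) (PQ w Z I)

/-- DNU: totality goes up to larger systems -/
def DNUStmt : Prop := ∀ (M : Type) [SetStr M] [ZFC M] (w Z I J K : M), Bs w Z →
  ¬ E emp I → Sub J I → Syq w Z J → Tot w Z J K → Tot w Z I K

/-- MSX: the largest system exists -/
def MSXStmt : Prop := ∀ (M : Type) [SetStr M] [ZFC M] (w : M), IsW w → ∃ Z H I, Ms w Z H I

/-- CCZ: antichains are images of `Z` -/
def CCZStmt : Prop := ∀ (M : Type) [SetStr M] [ZFC M] (w Z I A : M), Bs w Z → ¬ E emp I →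
  Anti (PQ w Z I) A → Img Z A

section
variable {M : Type} [SetStr M] [ZF M]

/-- the set of pairs `(b, h)` of a row index and a function -/
noncomputable def UN (w : M) : M := prod w (sep (pow (prod om om)) (fun h => Fo h))

theorem UN_df : Fn1 (fun w : M => UN w) := by unfold UN; infer_instance

instance {n : ℕ} {t : (Fin n → M) → M} [ht : DfT t] : DfT (fun v => UN (t v)) := UN_df.comp1 ht

theorem mem_UN {w u : M} : E u (UN w) ↔ ∃ b h, E b w ∧ Fo h ∧ u = opair b h := by
  unfold UN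
  rw [mem_prod']
  constructor
  · rintro ⟨b, h, hb, hh, rfl⟩
    rw [mem_sep' inferInstance] at hh
    exact ⟨b, h, hb, hh.2, rfl⟩
  · rintro ⟨b, h, hb, hh, rfl⟩
    refine ⟨b, h, hb, ?_, rfl⟩
    rw [mem_sep' inferInstance, mem_pow]
    refine ⟨fun z hz => ?_, hh⟩
    obtain ⟨n, m, hn, hm, rfl⟩ := hh.1 z hz
    rw [mem_prod]; exact ⟨hn, hm⟩

/-- `e` is a nice name for `D` -/
def Nic (w Z I : M) (D : M → M → Prop) (e : M) : Prop :=
  (∀ t, E t e → ∃ u q, E u (UN w) ∧ E q (PQ w Z I) ∧ D u q ∧ t = opair u q) ∧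
  (∀ u q, E u (UN w) → E q (PQ w Z I) → D u q → ∃ q', E (opair u q') e ∧ Cpt (PQ w Z I) q' q) ∧
  Img Z e

end

/-- NCN: nice names exist -/
def NCNStmt : Prop := ∀ (M : Type) [SetStr M] [ZFC M] (w Z I : M) (D : M → M → Prop), Bs w Z →
  ¬ E emp I → Cl2 D → ∃ e, Nic w Z I D e

/-- facts about `H` -/
structure HvFacts {M : Type} [SetStr M] [ZF M] (w Z H : M) : Prop where
  cond : ∀ {I p : M}, Sub I H → E p (PQ w Z I) → E p H
  name : ∀ {I e : M}, Sub I H → Img Z e →
    (∀ t, E t e → ∃ u q, E u (UN w) ∧ E q (PQ w Z I) ∧ t = opair u q) → E e H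

/-- HVX -/
def HVXStmt : Prop := ∀ (M : Type) [SetStr M] [ZFC M] (w Z H : M), Bs w Z → Trans H →
  (∀ a, Sub a H → Img Z a → E a H) → HvFacts w Z H

/-- TRE: treating the row `b` in the column `K`, without changing the entries at the positions
in `e` -/
def TREStmt : Prop := ∀ (M : Type) [SetStr M] [ZFC M] (w Z I a p e K b : M), Ns w Z I →
  E K I → Cnd w Z I a p → E b a → Eps I e →
  ∃ q, E q (PQ w Z I) ∧ Sub p q ∧ Sm e p q ∧ Tr q K b

/-- ONE: an open dense set is reached for all decisions at the positions in `e`, without changing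
the entries there -/
def ONEStmt : Prop := ∀ (M : Type) [SetStr M] [ZFC M] (w Z I p e : M) (D : M → Prop),
  Bs w Z → ¬ E emp I → Cl D →
  (∀ p, E p (PQ w Z I) → ∃ q, E q (PQ w Z I) ∧ Sub p q ∧ D q) →
  (∀ q q', E q (PQ w Z I) → E q' (PQ w Z I) → Sub q q' → D q → D q') →
  E p (PQ w Z I) → Eps I e →
  ∃ q, E q (PQ w Z I) ∧ Sub p q ∧ Sm e p q ∧ ∀ s, Dc e s → D (md q e s)

/-- FSE: one step of the fusion -/
def FSEStmt : Prop := ∀ (M : Type) [SetStr M] [ZFC M] (w Z I : M) (D : M → M → Prop),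
  Ns w Z I → Cl2 D → Odn w Z I D → ∀ x t, St w Z I x →
  ∃ y, St w Z I y ∧ Nx D x y ∧ Dn I t y

/-- LIM: the union of a fusion sequence is a condition -/
def LIMStmt : Prop := ∀ (M : Type) [SetStr M] [ZFC M] (w Z I P Q : M), Bs w Z → ¬ E emp I →
  (∀ n, E n om → E (app P n) (PQ w Z I) ∧ Eps I (app Q n) ∧ Sub (app P n) (app P (suc n)) ∧
    Sm (app Q n) (app P n) (app P (suc n)) ∧ Sub (app Q n) (app Q (suc n))) →
  (∀ n K b, E n om → E K I → Col (app P n) K → (∃ y, Et (app P n) emp b y) →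
    ∃ l, E l om ∧ Tr (app P l) K b) →
  (∀ n K i m, E n om → E K I → Col (app P n) K → E i om → E m om →
    ∃ l, E l om ∧ E (opair K (opair i m)) (app Q l) ∧ ∃ j, E j om ∧ Sub m j ∧
      E (opair K (opair i j)) (app Q l) ∧ E m (card (Wn (col (app P l) K i) j))) →
  E (uq P) (PQ w Z I) ∧ ∀ n, E n om → Sub (app P n) (uq P) ∧ Sm (app Q n) (app P n) (uq P)

/-- GRL: reading of a sequence of open dense sets with finitely many possibilities -/
def GRLStmt : Prop := ∀ (M : Type) [SetStr M] [ZFC M] (w Z I p : M) (D : M → M → Prop),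
  Ns w Z I → E p (PQ w Z I) → Cl2 D → Odn w Z I D →
  ∃ q T, E q (PQ w Z I) ∧ Sub p q ∧
    (∀ k, E k om → Fnt (app T k) ∧ ∀ t, E t (app T k) → E t (PQ w Z I) ∧ D k t ∧ Ls q t) ∧
    (∀ k r, E k om → E r (PQ w Z I) → Sub q r →
      ∃ t r', E t (app T k) ∧ E r' (PQ w Z I) ∧ Sub r r' ∧ Sub t r') ∧
    ∀ r, E r (PQ w Z I) → Ls r q → ∃ m, E m om ∧
      ∀ k r1, E k om → Sub m k → E r1 (PQ w Z I) → Sub r r1 →
        ∃ t r', E t (app T k) ∧ E r' (PQ w Z I) ∧ Sub r1 r' ∧ Sub t r'

/-- EXH: every condition has an extension of height above a given countable ordinal -/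
def EXHStmt : Prop := ∀ (M : Type) [SetStr M] [ZFC M] (w Z I p c : M), Ns w Z I →
  E p (PQ w Z I) → E c w → ∃ q a, Cnd w Z I a q ∧ Sub p q ∧ E c a

/-! ## Part G: the extension -/

/-- ABS: functions of the ground model in the extension -/
structure AbFacts {M : Type} [SetStr M] [ZF M] (F : FPoset M) (G : M → Prop)
    [ZF (Ext F G)] : Prop where
  nat : ∀ {x : Ext F G}, E x om → ∃ n, E n om ∧ x = emb F G n
  fo : ∀ {f : M}, Fo f → Fo (emb F G f)
  app : ∀ {f n : M}, Fo f → E n om → app (emb F G f) (emb F G n) = emb F G (SW.app f n)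
  rl : ∀ {f : M}, RL f → RL (emb F G f)
  evd : ∀ {f g : M}, Fo f → Fo g → Evd f g → Evd (emb F G f) (emb F G g)

def ABSStmt : Prop := ∀ (M : Type) [SetStr M] [ZF M] (F : FPoset M) (G : M → Prop), Gen F G →
  ∀ [ZF (Ext F G)], AbFacts F G

/-- FCV: finite covering of sequences: if the relation `f` of the extension assigns to every
number members of `X` then some function `T` of the ground model assigns to every number a
finite set which contains one of them -/
def FCVStmt : Prop := ∀ (M : Type) [SetStr M] [ZFC M] [Countable M] (w Z I : M)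
  (G : M → Prop), Ns w Z I → Gen (PG w Z I) G → ∀ [ZF (Ext (PG w Z I) G)],
  ∀ (X : M) (f : Ext (PG w Z I) G),
  (∀ n, E n om → ∃ y, E y X ∧ E (opair (emb (PG w Z I) G n) (emb (PG w Z I) G y)) f) →
  ∃ T : M, ∀ n, E n om → Fnt (app T n) ∧ Sub (app T n) X ∧
    ∃ y, E y (app T n) ∧ E (opair (emb (PG w Z I) G n) (emb (PG w Z I) G y)) f

/-- WPX: the first uncountable ordinal is preserved -/
def WPXStmt : Prop := ∀ (M : Type) [SetStr M] [ZFC M] [Countable M] (w Z I : M)
  (G : M → Prop), Ns w Z I → Gen (PG w Z I) G → ∀ [ZF (Ext (PG w Z I) G)],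
  IsW (emb (PG w Z I) G w)

section
variable {M : Type} [SetStr M] [ZF M]

/-- the name of the sequence of row functions -/
noncomputable def GA (w Z I : M) : M := Nmx (PG w Z I) (prod w Z)
  (fun p z => ∃ b f c S, Rw p b f c S ∧ z = opair b f)

/-- the name of the sequence of the functions `c` of the rows -/
noncomputable def GC (w Z I : M) : M := Nmx (PG w Z I) (prod w Z)
  (fun p z => ∃ b f c S, Rw p b f c S ∧ z = opair b c)

/-- the name of the set of triples `(n, (j, v))` such that the nonzero value `v` is forced at the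
position `(n, j)` in the column `K` -/
noncomputable def GK (w Z I K : M) : M := Nmx (PG w Z I) (prod om (prod om om))
  (fun p z => ∃ n j v, E v (suc j) ∧ Ex p K n j emp ∧ ¬ Ex p K n j v ∧
    z = opair n (opair j v))

end

/-- ROG: the generic rows -/
def ROGStmt : Prop := ∀ (M : Type) [SetStr M] [ZFC M] [Countable M] (w Z I : M)
  (G : M → Prop), Ns w Z I → Gen (PG w Z I) G → ∀ [ZF (Ext (PG w Z I) G)],
  (∀ p b f c S, G p → Rw p b f c S →
    app (mk (PG w Z I) G (GA w Z I)) (emb (PG w Z I) G b) = emb (PG w Z I) G f ∧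
    app (mk (PG w Z I) G (GC w Z I)) (emb (PG w Z I) G b) = emb (PG w Z I) G c) ∧
  (∀ b, E b w → ∃ p f c S, G p ∧ Rw p b f c S ∧ RL f ∧ Fo c) ∧
  (∀ b b', E b w → E b' w → b ≠ b' → ∃ p f c S f' c' S', G p ∧ Rw p b f c S ∧
    Rw p b' f' c' S' ∧ Evd f f') ∧
  ∀ c, Fo c → ∃ p b f S, G p ∧ E b w ∧ Rw p b f c S

/-- COG: the generic columns -/
def COGStmt : Prop := ∀ (M : Type) [SetStr M] [ZFC M] [Countable M] (w Z I K : M)
  (G : M → Prop), Ns w Z I → E K I → Gen (PG w Z I) G → ∀ [ZF (Ext (PG w Z I) G)],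
  ∀ b, E b w → ∃ p f c S h r, G p ∧ Rw p b f c S ∧ RL f ∧ E (opair (opair b h) r) K ∧ Ls p r ∧
    (∀ n, E n om → ∃ m, E m om ∧ ∀ j, E j om → Sub m j →
      ¬ E (opair (emb (PG w Z I) G n) (opair (emb (PG w Z I) G j) (emb (PG w Z I) G (app f j))))
        (mk (PG w Z I) G (GK w Z I K))) ∧
    ∀ m, E m om → ∃ n j, E n om ∧ Sub m n ∧ E j om ∧ E (app h n) j ∧
      E (opair (emb (PG w Z I) G n) (opair (emb (PG w Z I) G j) (emb (PG w Z I) G (app f j))))
        (mk (PG w Z I) G (GK w Z I K))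

/-- the predicate for the forcing relation: the value at `v 2` of the value of the function
`v 0` at `v 1` is in `v 3` -/
def QL (N : Type) [SetStr N] (v : Fin 4 → N) : Prop := ∃ g y, PairIn (v 1) g (v 0) ∧
  PairIn (v 2) y g ∧ E y (v 3)

/-- the predicate for the forcing relation: `v 0` assigns functions from `v 2` to `v 2` to
the members of `v 1` -/
def QO (N : Type) [SetStr N] (v : Fin 3 → N) : Prop := ∀ b, E b (v 1) → ∀ k, E k (v 2) →
  ∃ g y, PairIn b g (v 0) ∧ PairIn k y g ∧ E y (v 2)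

instance QL_df : UDf QL := by
  unfold QL PairIn IsOP
  infer_instance

instance QO_df : UDf QO := by
  unfold QO PairIn IsOP
  infer_instance

section
variable {M : Type} [SetStr M] [ZF M]

/-- the relation for which names are made: every condition `r` above `p0` which is below `q`
up to finitely many entries forces that the function named `t` has at `b` a value which is
eventually below `h`; here `u = (b, h)` -/
def DR (w Z I t p0 u q : M) : Prop := ∀ r, E r (PQ w Z I) → Ls r q → Sub p0 r →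
  ∃ m, E m om ∧ ∀ k, E k om → Sub m k → FS (PG w Z I) QL r
    ![t, chk (PG w Z I) (fs u), chk (PG w Z I) k, chk (PG w Z I) (app (sn u) k)]

end

/-- DRF: `DR` is definable -/
def DRFStmt : Prop := ∀ (M : Type) [SetStr M] [ZF M] [Countable M] (w Z I t p0 : M),
  Cl2 (fun u q : M => DR w Z I t p0 u q)

/-- RND: density of `DR` -/
def RNDStmt : Prop := ∀ (M : Type) [SetStr M] [ZFC M] [Countable M] (w Z I t p0 : M),
  Ns w Z I → E p0 (PQ w Z I) →
  FS (PG w Z I) QO p0 ![t, chk (PG w Z I) w, chk (PG w Z I) om] →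
  ∀ p b, E p (PQ w Z I) → E b w → ∃ q h, E q (PQ w Z I) ∧ Sub p q ∧ Fo h ∧
    DR w Z I t p0 (opair b h) q

/-- RNM: functions of the extension are dominated by names in the largest system -/
def RNMStmt : Prop := ∀ (M : Type) [SetStr M] [ZFC M] [Countable M] (w Z H I : M)
  (G : M → Prop), Ms w Z H I → Gen (PG w Z I) G → ∀ [ZF (Ext (PG w Z I) G)],
  ∀ F : Ext (PG w Z I) G, (∀ b, E b w → Fo (app F (emb (PG w Z I) G b))) →
  ∃ K, E K I ∧ ∀ b h r p, E b w → G p → E (opair (opair b h) r) K → Ls p r →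
    ∃ m, E m om ∧ ∀ k, E k om → Sub m k →
      E (app (app F (emb (PG w Z I) G b)) (emb (PG w Z I) G k)) (emb (PG w Z I) G (app h k))

section
variable {M : Type} [SetStr M] [ZF M]

/-- the selection principle for the rows `A` -/
def SelN (w A : M) : Prop := ∀ F, (∀ b, E b w → Fo (app F b)) → ∃ P, ∀ b, E b w →
  (∀ n, E n om → ∃ m, E m om ∧ ∀ j, E j om → Sub m j →
    ¬ E (opair n (opair j (app (app A b) j))) P) ∧
  ∃ n j, E n om ∧ E j om ∧ E (app (app F b) n) j ∧ E (opair n (opair j (app (app A b) j))) P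

/-- what holds in the extension -/
structure FinN (w A C : M) : Prop where
  w1 : IsW w
  rl : ∀ b, E b w → RL (app A b)
  evd : ∀ b b', E b w → E b' w → b ≠ b' → Evd (app A b) (app A b')
  fo : ∀ b, E b w → Fo (app C b)
  dom : ∀ g, Fo g → ∃ b, E b w ∧ ∀ n, E n om → E (app g n) (app (app C b) n)
  sel : SelN w A

end

/-- FNX: assembly of part G -/
def FNSStmt : Prop := ∀ (M : Type) [SetStr M] [ZFC M] [Countable M] (w Z H I : M)
  (G : M → Prop), Ms w Z H I → Gen (PG w Z I) G → ∀ [ZF (Ext (PG w Z I) G)],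
  FinN (emb (PG w Z I) G w) (mk (PG w Z I) G (GA w Z I)) (mk (PG w Z I) G (GC w Z I))

/-! ## Part E: the final statement in a model of ZFC -/

section
variable {M : Type} [SetStr M] [ZF M]

/-- `e` maps pairs of numbers injectively to numbers -/
def Inje (e : M) : Prop := (∀ z, E z (prod om om) → E (app e z) om) ∧
  ∀ z z', E z (prod om om) → E z' (prod om om) → app e z = app e z' → z = z'

/-- the set of codes of the pairs `(j, f j)` -/
noncomputable def al (e f : M) : M := img om (fun j => app e (opair j (app f j)))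

theorem al_df : Fn2 (fun e f : M => al e f) := by unfold al; infer_instance

instance {n : ℕ} {t s : (Fin n → M) → M} [ht : DfT t] [hs : DfT s] :
    DfT (fun v => al (t v) (s v)) := al_df.comp2 ht hs

/-- the almost disjoint family -/
noncomputable def AF (w e A : M) : M := img w (fun b => al e (app A b))

/-- the dominating family -/
noncomputable def DF (w C : M) : M := img w (fun b => app C b)

end

/-- EIJ -/
def EIJStmt : Prop := ∀ (M : Type) [SetStr M] [ZFC M], ∃ e : M, Inje e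

/-- EFO: functions from `om` to `om` in the two languages -/
def EFOStmt : Prop := ∀ (M : Type) [SetStr M] [ZF M], IsOmega (om : M) ∧
  (∀ f : M, IsFunction f om om ↔ Fo f) ∧ ∀ g f : M, EventuallyLe om g f ↔ Fo g ∧ Fo f ∧
    ∃ n, E n om ∧ ∀ m, E m om → Sub n m → Sub (app g m) (app f m)

/-- EAD: the almost disjoint family -/
def EADStmt : Prop := ∀ (M : Type) [SetStr M] [ZFC M] (w e A : M), Inje e →
  (∀ b, E b w → RL (app A b)) →
  (∀ b b', E b w → E b' w → b ≠ b' → Evd (app A b) (app A b')) →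
  IsADFamily om (AF w e A) ∧
  ∀ b b', E b w → E b' w → al e (app A b) = al e (app A b') → b = b'

/-- ESA: all subfamilies are selectively (a) -/
def ESAStmt : Prop := ∀ (M : Type) [SetStr M] [ZFC M] (w e A : M), Inje e →
  (∀ b, E b w → RL (app A b)) →
  (∀ b b', E b w → E b' w → b ≠ b' → Evd (app A b) (app A b')) → SelN w A →
  ∀ B, Incl B (AF w e A) → IsSelectivelyA om B

/-- NDC: countable families are not dominating -/
def NDCStmt : Prop := ∀ (M : Type) [SetStr M] [ZFC M] (D : M), Cb D → (∀ f, E f D → Fo f) →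
  ∃ g, Fo g ∧ ∀ f, E f D → ∀ n, E n om → ∃ m, E m om ∧ Sub n m ∧ E (app f m) (app g m)

/-- ESZ: cardinalities -/
def ESZStmt : Prop := ∀ (M : Type) [SetStr M] [ZFC M] (w e A C : M), Inje e → FinN w A C →
  IsDominating om (DF w C) ∧ (∀ D, IsDominating om D → InjectsInto (DF w C) D) ∧
  InjectsInto (AF w e A) (DF w C) ∧ InjectsInto (DF w C) (AF w e A)

/-- DVM: every countable model of ZFC has a generic extension which is a model of ZFC in which
`𝔡 < 𝔳_ssa` -/
def DVMStmt : Prop := ∀ (M : Type) [SetStr M] [ZFC M] [Countable M],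
  ∃ (N : Type) (_ : SetStr N) (_ : ZFC N) (i : M → N), IsGenExt i ∧ DominatingLtVssa N

end SW.DV
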